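import Pool.Agent.helper81.CX.Spec2

set_option autoImplicit false

open MeasureTheory Set Filter Topology
open scoped ENNReal
open Pool.Agent.helper81.CW

namespace Pool.Agent.CX

theorem LCX_int {n : ℕ} (hG1 : G1_stmt) {g : E n → ℝ} (hg : Measurable g) (C : ℝ) (hC : ∀ x, |g x| ≤ C) :
    Integrable g (gm n) := by
  have := (hG1 n).1
  exact Integrable.of_bound hg.aestronglyMeasurable C (Eventually.of_forall fun x => hC x)

theorem LCX_cs {n : ℕ} (hG1 : G1_stmt) {u v : E n → E n} (hu : BM u) (hv : BM v) :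
    (∫ x, inner ℝ (u x) (v x) ∂(gm n)) ^ 2 ≤
      (∫ x, inner ℝ (u x) (u x) ∂(gm n)) * ∫ x, inner ℝ (v x) (v x) ∂(gm n) := by
  have hi : ∀ {a b : E n → E n}, BM a → BM b → Integrable (fun x => inner ℝ (a x) (b x)) (gm n) := by
    intro a b ha hb
    refine LCX_int hG1 (ha.1.inner hb.1) 4 fun x => ?_
    have h1 := abs_real_inner_le_norm (a x) (b x)
    have h2 := ha.2 x
    have h3 := hb.2 x
    have h4 : ‖a x‖ * ‖b x‖ ≤ 2 * 2 := mul_le_mul h2 h3 (norm_nonneg _) (by norm_num)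
    linarith
  have h1 : ∀ r : ℝ, 0 ≤ (∫ x, inner ℝ (u x) (u x) ∂(gm n)) * (r * r) +
      (2 * ∫ x, inner ℝ (u x) (v x) ∂(gm n)) * r + ∫ x, inner ℝ (v x) (v x) ∂(gm n) := by
    intro r
    have h2 : ∫ x, inner ℝ (r • u x + v x) (r • u x + v x) ∂(gm n) =
        (∫ x, inner ℝ (u x) (u x) ∂(gm n)) * (r * r) +
        (2 * ∫ x, inner ℝ (u x) (v x) ∂(gm n)) * r + ∫ x, inner ℝ (v x) (v x) ∂(gm n) := by
      have h3 : ∀ x, inner ℝ (r • u x + v x) (r • u x + v x) =
          (r * r) * inner ℝ (u x) (u x) + (2 * r) * inner ℝ (u x) (v x) + inner ℝ (v x) (v x) := by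
        intro x
        rw [inner_add_left, inner_add_right, inner_add_right, real_inner_smul_left, real_inner_smul_right,
          real_inner_smul_left, real_inner_smul_right, real_inner_comm (u x) (v x)]
        ring
      simp only [h3]
      have i1 : Integrable (fun x => (r * r) * inner ℝ (u x) (u x)) (gm n) := (hi hu hu).const_mul _
      have i2 : Integrable (fun x => (2 * r) * inner ℝ (u x) (v x)) (gm n) := (hi hu hv).const_mul _
      have i3 : Integrable (fun x => (r * r) * inner ℝ (u x) (u x) + (2 * r) * inner ℝ (u x) (v x)) (gm n) := i1.add i2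
      rw [integral_add i3 (hi hv hv), integral_add i1 i2, integral_const_mul, integral_const_mul]
      ring
    rw [← h2]
    exact integral_nonneg fun x => real_inner_self_nonneg
  have h2 := discrim_le_zero h1
  rw [discrim] at h2
  nlinarith

theorem LCX (hG1 : G1_stmt) (hCRB : CRB_stmt) (hCRS : CRS_stmt) : LCX_stmt := by
  intro n f c hf hc0 hc1 j
  have hs0 : ∀ i : ℕ, 0 ≤ √(c ^ i) := fun i => Real.sqrt_nonneg _
  have hs1 : ∀ i : ℕ, √(c ^ i) ≤ 1 := fun i => by
    rw [← Real.sqrt_one]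
    exact Real.sqrt_le_sqrt (pow_le_one₀ hc0 hc1)
  have hss : ∀ i : ℕ, √(c ^ i) * √(c ^ i) = c ^ i := fun i => Real.mul_self_sqrt (pow_nonneg hc0 i)
  have hB : ∀ i : ℕ, BM (PP f (√(c ^ i))) := fun i =>
    (hCRB n f f _ hf hf (by rw [abs_of_nonneg (hs0 i)]; exact hs1 i)).1
  have hE : ∀ i : ℕ, CR f f (c ^ i) = ∫ x, inner ℝ (PP f (√(c ^ i)) x) (PP f (√(c ^ i)) x) ∂(gm n) := fun i => by
    have h1 := hCRS n f f _ _ hf hf (hs0 i) (hs1 i) (hs0 i) (hs1 i)
    rw [hss] at h1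
    exact h1
  refine ⟨?_, ?_⟩
  · rw [hE]
    exact integral_nonneg fun x => real_inner_self_nonneg
  · have h1 : √(c ^ j) * √(c ^ (j + 2)) = c ^ (j + 1) := by
      rw [← Real.sqrt_mul (pow_nonneg hc0 j), show c ^ j * c ^ (j + 2) = (c ^ (j + 1)) ^ 2 by ring,
        Real.sqrt_sq (pow_nonneg hc0 _)]
    have h2 := hCRS n f f _ _ hf hf (hs0 j) (hs1 j) (hs0 (j + 2)) (hs1 (j + 2))
    rw [h1] at h2
    rw [h2, hE j, hE (j + 2)]
    exact LCX_cs hG1 (hB j) (hB (j + 2))

end Pool.Agent.CX
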